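import Pool.Agent.Y423.TC.Est

/-!
# Partitioning the cube into general position sets: `f(d) ≤ (4 + o(1)) d / log₂ d`
-/

set_option autoImplicit false

namespace Pool.Agent.Results.MP_fd3312_co.DimensionOverLog

/-- The point of `{1, ..., k}^d ⊆ ℝ^d` given by `x : Fin d → Fin k`. -/
def pt {d k : ℕ} (x : Fin d → Fin k) : Fin d → ℝ := fun i => ((x i : ℕ) : ℝ) + 1

/-- No `k` distinct points of `{1, ..., k}^d` of the same colour are collinear in `ℝ^d`. For
`k = 3` this says that every colour class is in general position. -/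
def LineFree {d k m : ℕ} (χ : (Fin d → Fin k) → Fin m) : Prop :=
  ∀ T : Finset (Fin d → Fin k), T.card = k → (∀ x ∈ T, ∀ y ∈ T, χ x = χ y) →
    ¬ Collinear ℝ (pt '' (T : Set (Fin d → Fin k)))

/-- The least number of colours; `f 3 d` is the number `f(d)` of the problem. -/
noncomputable def f (k d : ℕ) : ℕ := sInf {m : ℕ | ∃ χ : (Fin d → Fin k) → Fin m, LineFree χ}

theorem lineFree_of_good {d k m : ℕ} {χ : (Fin d → Fin k) → Fin m}
    (h : Pool.Agent.Y423.TC.Good χ) : LineFree χ := by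
  intro T hT hmono hcol
  refine h T hT hmono ?_
  rw [collinear_iff_exists_forall_eq_smul_vadd] at hcol ⊢
  obtain ⟨p0, v, hv⟩ := hcol
  refine ⟨p0 - 1, v, ?_⟩
  rintro t ⟨u, hu, rfl⟩
  obtain ⟨s, hs⟩ := hv _ ⟨u, hu, rfl⟩
  refine ⟨s, ?_⟩
  funext i
  have := congrFun hs i
  simp only [pt, vadd_eq_add, Pi.add_apply, Pi.smul_apply, smul_eq_mul, Pi.sub_apply,
    Pi.one_apply] at this ⊢
  linarith

theorem exists_colouring (k d : ℕ) (hk : 2 ≤ k) :
    ∃ χ : (Fin d → Fin k) → Fin (f k d), LineFree χ := by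
  classical
  have hne : {m : ℕ | ∃ χ : (Fin d → Fin k) → Fin m, LineFree χ}.Nonempty := by
    refine ⟨Fintype.card (Fin d → Fin k), Fintype.equivFin _, ?_⟩
    intro T hT hmono _
    obtain ⟨x, hx, y, hy, hxy⟩ := Finset.one_lt_card.1 (show 1 < T.card by omega)
    exact hxy ((Fintype.equivFin _).injective (hmono x hx y hy))
  exact Nat.sInf_mem hne

theorem f_le {k d m : ℕ} {χ : (Fin d → Fin k) → Fin m} (h : Pool.Agent.Y423.TC.Good χ) :
    (f k d : ℝ) ≤ m := by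
  have : f k d ≤ m := Nat.sInf_le ⟨χ, lineFree_of_good h⟩
  exact_mod_cast this

/-- **Colourings of `{1, ..., k}^d` without monochromatic lines.** The least number `f k d` of
colours exists, is at most `C d / log d` for all `k ≥ 3` and `d ≥ 2`, with one constant `C`, and is
at most `(4 + ε) d / log₂ d` for all `k ≥ 3` and all `d ≥ N(ε)`. -/
theorem result :
    (∀ k d : ℕ, 2 ≤ k → ∃ χ : (Fin d → Fin k) → Fin (f k d), LineFree χ) ∧
    (∃ C : ℝ, ∀ k d : ℕ, 3 ≤ k → 2 ≤ d → (f k d : ℝ) ≤ C * d / Real.log d) ∧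
    ∀ ε : ℝ, 0 < ε → ∃ N : ℕ, ∀ k d : ℕ, 3 ≤ k → N ≤ d →
      (f k d : ℝ) ≤ (4 + ε) * d / Real.logb 2 d := by
  refine ⟨exists_colouring, ?_, ?_⟩
  · obtain ⟨C, hC⟩ := Pool.Agent.Y423.TC.all_d
    refine ⟨C, fun k d hk hd => ?_⟩
    obtain ⟨m, χ, hχ, hm⟩ := hC k d hk hd
    exact (f_le hχ).trans hm
  · intro ε hε
    obtain ⟨N, hN⟩ := Pool.Agent.Y423.TC.large_d ε hε
    refine ⟨N, fun k d hk hd => ?_⟩
    obtain ⟨m, χ, hχ, hm⟩ := hN k d hk hd
    exact (f_le hχ).trans hm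

end Pool.Agent.Results.MP_fd3312_co.DimensionOverLog
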